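import Pool.Agent.W587.MX.Stm

open Topology Filter

namespace Pool.Agent.W490.MX

open Pool.Agent.W587.MX

theorem root : T2_ROOT := by
  intro G z0 hG h0 hne
  obtain ⟨e, H, hH, hH0, hGH⟩ := hG.exists_eventuallyEq_pow_smul_nonzero_iff.mpr hne
  have he : 1 ≤ e := by
    rcases Nat.eq_zero_or_pos e with h | h
    · subst h
      have h1 := hGH.self_of_nhds
      rw [h0, pow_zero, one_smul] at h1
      exact absurd h1.symm hH0
    · exact h
  have he0 : (e : ℂ) ≠ 0 := by
    have : e ≠ 0 := by omega
    exact_mod_cast this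
  obtain ⟨c, hc⟩ := IsAlgClosed.exists_pow_nat_eq (H z0) he
  have hc0 : c ≠ 0 := by
    rintro rfl
    rw [zero_pow (by omega)] at hc
    exact hH0 hc.symm
  set h : ℂ → ℂ := fun z => c * Complex.exp (Complex.log (H z / H z0) / e) with hdef
  have hh : AnalyticAt ℂ h z0 := by
    have h1 : AnalyticAt ℂ (fun z => H z / H z0) z0 := hH.div analyticAt_const hH0
    have h2 : H z0 / H z0 ∈ Complex.slitPlane := by
      rw [div_self hH0]
      exact Complex.one_mem_slitPlane
    exact analyticAt_const.mul (((h1.clog h2).div analyticAt_const he0).cexp)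
  have hz0 : h z0 = c := by
    rw [hdef]
    simp only [div_self hH0, Complex.log_one, zero_div, Complex.exp_zero, mul_one]
  have hpow : ∀ᶠ z in 𝓝 z0, h z ^ e = H z := by
    filter_upwards [hH.continuousAt.eventually_ne hH0] with z hz
    rw [hdef]
    simp only
    rw [mul_pow, hc, ← Complex.exp_nat_mul, mul_div_cancel₀ _ he0,
      Complex.exp_log (div_ne_zero hz hH0)]
    field_simp
  set φ : ℂ → ℂ := fun z => (z - z0) * h z with hφ
  have hφa : AnalyticAt ℂ φ z0 := (analyticAt_id.sub analyticAt_const).mul hh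
  have hφd : HasDerivAt φ (h z0) z0 := by
    have k := ((hasDerivAt_id z0).sub_const z0).mul hh.differentiableAt.hasDerivAt
    refine k.congr_deriv ?_
    simp
  have hφ0 : φ z0 = 0 := by
    rw [hφ]; simp
  have hd : deriv φ z0 ≠ 0 := by
    rw [hφd.deriv, hz0]
    exact hc0
  refine ⟨e, he, φ, hφa.hasStrictDerivAt.localInverse _ _ _ hd, hφa, ?_, hφ0, ?_, ?_, ?_, ?_⟩
  · have k := hφa.analyticAt_localInverse hd
    rwa [hφ0] at k
  · have k := (HasStrictDerivAt.eventually_left_inverse hφa.hasStrictDerivAt hd).self_of_nhds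
    rwa [hφ0] at k
  · exact HasStrictDerivAt.eventually_left_inverse hφa.hasStrictDerivAt hd
  · have k := HasStrictDerivAt.eventually_right_inverse hφa.hasStrictDerivAt hd
    rwa [hφ0] at k
  · filter_upwards [hGH, hpow] with z h1 h2
    rw [h1, hφ, smul_eq_mul]
    simp only
    rw [mul_pow, h2]

end Pool.Agent.W490.MX
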